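import Pool.Agent.R766.Rotor.Local

/-!
# The oriented wired spanning forest is not the only infinite-step stationary measure

For every `d ≥ 3`, every starting vertex `a` and all local mechanisms `τ`, the oriented wired
uniform spanning forest `OWUSF` is not the only infinite-step stationary measure for rotor walk
on `ℤ^d`.

The idea. There is an absolutely summable `h : ℤ^d → ℝ` with `h(a) = 0` whose graph Laplacian
takes values in `2 d ℤ` and which has a noninteger difference along some edge. It gives summable
weights `w(x, e)` of the values of the rotors such that `h(position) + ∑ₓ w(x, ρ(x))` is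
constant modulo `1` along rotor walk. For a transient walk `Φ(ρ) = ∑ₓ w(x, ρ(x))` modulo `1`
therefore has the same value at the initial and at the final configuration. Hence an
infinite-step stationary measure `μ`, conditioned on `Φ ∈ B`, is again infinite-step stationary.
Under `OWUSF` the rotor at a leaf is uniform given the rest, so `Φ` is not almost surely
constant modulo `1`, and for a suitable `B` the conditioned measure differs from `OWUSF`.

The definitions are in `Pool.Agent.R766.Rotor.Harm` (`V`, `Dir`, `vec`),
`Pool.Agent.R766.Rotor.Walk` (`Cfg`, `SingleOrbit`, `step`, `walk`, `Transient`, `final`, `ISS`)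
and `Pool.Agent.R766.Rotor.Forest` (`Edge`, `IsForest`, `forests`, `forestProb`, `IsOWUSF`).
-/

set_option autoImplicit false

open MeasureTheory R766.Rotor

namespace Pool.Agent.Results.MP_c09afc_pr.NotUnique

/-- For every `d ≥ 3`, all mechanisms `τ` and every starting vertex `a`, it is false that the
oriented wired uniform spanning forest measure `μ` is infinite-step stationary and is the only
infinite-step stationary measure. -/
theorem result {d : ℕ} (hd : 3 ≤ d)
    (τ : V d → Equiv.Perm (Dir d)) (hτ : ∀ x, SingleOrbit (τ x)) (a : V d)
    (μ : Measure (Cfg d)) (hμ : IsOWUSF μ) :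
    (ISS τ a μ → ∃ ν : Measure (Cfg d), ISS τ a ν ∧ ν ≠ μ) ∧
      ¬ (∀ ν : Measure (Cfg d), ISS τ a ν ↔ ν = μ) := by
  have h1 : ISS τ a μ → ∃ ν : Measure (Cfg d), ISS τ a ν ∧ ν ≠ μ := fun hI =>
    exists_other (by omega) τ hτ a μ hI (locRand_of_OWUSF (by omega) μ hμ)
  refine ⟨h1, fun h2 => ?_⟩
  obtain ⟨ν, hν, hne⟩ := h1 ((h2 μ).2 rfl)
  exact hne ((h2 ν).1 hν)

end Pool.Agent.Results.MP_c09afc_pr.NotUnique
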